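import Mathlib
import Pool.Agent.Helper529.HJ.FolB

set_option autoImplicit false

open Classical

namespace Pool.Agent.Helper375.EA

open HJI.Fol

variable {H : Type} [Group H]

theorem fol_mono {P Q : Subgroup H} (h : P ≤ Q) (hQ : Fol Q) : Fol P :=
  fol_of_injective (Subgroup.inclusion h) (Subgroup.inclusion_injective h) hQ

/-- a locally Folner group is Folner -/
theorem fol_of_local {G : Type} [Group G]
    (h : ∀ S : Finset G, ∃ P : Subgroup G, Fol P ∧ ∀ s ∈ S, s ∈ P) : Fol G := by
  intro S ε hε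
  obtain ⟨P, hP, hS⟩ := h S
  have hP' := hP (S.attach.image (fun s => (⟨s.1, hS s.1 s.2⟩ : P))) ε hε
  obtain ⟨T, hT, hTS⟩ := hP'
  refine ⟨T.map ⟨Subtype.val, Subtype.val_injective⟩, hT.map, fun s hs => ?_⟩
  have h1 := hTS ⟨s, hS s hs⟩ (Finset.mem_image.2 ⟨⟨s, hs⟩, Finset.mem_attach _ _, rfl⟩)
  rw [Finset.card_map]
  refine le_trans (Nat.cast_le.2 ?_) h1
  rw [← Finset.card_map (⟨Subtype.val, Subtype.val_injective⟩ : P ↪ G)]
  refine Finset.card_le_card ?_
  intro t ht
  simp only [Finset.mem_filter, Finset.mem_map, Function.Embedding.coeFn_mk] at ht ⊢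
  obtain ⟨⟨t', ht', rfl⟩, h2⟩ := ht
  refine ⟨t', ⟨ht', fun h3 => h2 ⟨_, h3, rfl⟩⟩, rfl⟩

theorem fol_iSup {P : ℕ → Subgroup H} (hm : Monotone P) (hP : ∀ n, Fol (P n)) :
    Fol (⨆ n, P n : Subgroup H) := by
  apply fol_of_local
  intro S
  have hd : Directed (· ≤ ·) P := hm.directed_le
  have h1 : ∀ s : (⨆ n, P n : Subgroup H), ∃ n, (s : H) ∈ P n := fun s =>
    (Subgroup.mem_iSup_of_directed hd).1 s.2
  choose f hf using h1
  let N := S.sup f
  refine ⟨(P N).subgroupOf _, ?_, ?_⟩
  · have hle : P N ≤ ⨆ n, P n := le_iSup P N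
    exact fol_of_injective (Subgroup.subgroupOfEquivOfLe hle).toMonoidHom
      (Subgroup.subgroupOfEquivOfLe hle).injective (hP N)
  · intro s hs
    rw [Subgroup.mem_subgroupOf]
    exact hm (Finset.le_sup (f := f) hs) (hf s)

theorem fol_of_solvable {G : Type} [Group G] [hG : Group.IsSolvable G] : Fol G := by
  obtain ⟨n, hn⟩ := hG.solvable
  have key : ∀ k, k ≤ n → Fol (derivedSeries G (n - k)) := by
    intro k
    induction k with
    | zero =>
      intro _
      rw [Nat.sub_zero, hn]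
      exact fol_of_finite
    | succ k ih =>
      intro hk
      have ih' := ih (by omega)
      have e : n - k = (n - (k + 1)) + 1 := by omega
      rw [e] at ih'
      set D := derivedSeries G (n - (k + 1)) with hD
      refine fol_ext (Abelianization.of (G := D)) ?_ (fol_comm (fun a b => mul_comm a b))
      have hmem : ∀ x : (Abelianization.of (G := D)).ker, ((x : D) : G) ∈
          derivedSeries G (n - (k + 1) + 1) := by
        intro x
        have h1 : (x : D) ∈ commutator D := by
          rw [← Abelianization.ker_of]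
          exact x.2
        rw [derivedSeries_succ, ← hD]
        have h2 : ((x : D) : G) ∈ (commutator D).map D.subtype := ⟨_, h1, rfl⟩
        rw [commutator_def, Subgroup.map_commutator] at h2
        have h3 : (⊤ : Subgroup D).map D.subtype = D := by
          rw [← MonoidHom.range_eq_map]; exact Subgroup.range_subtype D
        rwa [h3] at h2
      refine fol_of_injective (H := (Abelianization.of (G := D)).ker)
        (G := derivedSeries G (n - (k + 1) + 1))
        ⟨⟨fun x => ⟨((x : D) : G), hmem x⟩, rfl⟩, fun x y => rfl⟩ ?_ ih'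
      intro x y hxy
      have h4 := congrArg Subtype.val hxy
      exact Subtype.ext (Subtype.ext h4)
  have h := key n le_rfl
  rw [Nat.sub_self, derivedSeries_zero] at h
  exact fol_of_injective (Subgroup.topEquiv (G := G)).symm.toMonoidHom
    (Subgroup.topEquiv (G := G)).symm.injective h

/-- The extension of a subgroup by an element normalising it: cyclic quotient. -/
theorem ext_cyc {N : Subgroup H} {D : H} (h : ∀ x ∈ N, D * x * D⁻¹ ∈ N)
    (h' : ∀ x ∈ N, D⁻¹ * x * D ∈ N) :
    ∃ (Q : Type) (_ : Group Q) (π : ↥(N ⊔ Subgroup.zpowers D) →* Q),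
      (∀ a b : Q, a * b = b * a) ∧ ∀ x, π x = 1 → (x : H) ∈ N := by
  set P := N ⊔ Subgroup.zpowers D with hP
  have hNP : N ≤ P := le_sup_left
  have hDP : D ∈ P := (le_sup_right : Subgroup.zpowers D ≤ P) (Subgroup.mem_zpowers D)
  have hDn : D ∈ Subgroup.normalizer (N : Set H) := by
    rw [Subgroup.mem_normalizer_iff]
    intro x
    refine ⟨fun hx => h x hx, fun hx => ?_⟩
    have := h' _ hx
    have e : D⁻¹ * (D * x * D⁻¹) * D = x := by group
    rwa [e] at this
  have hPn : P ≤ Subgroup.normalizer (N : Set H) := by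
    rw [hP]
    refine sup_le Subgroup.le_normalizer ?_
    rw [Subgroup.zpowers_le]
    exact hDn
  have hnorm : (N.subgroupOf P).Normal :=
    (Subgroup.normal_subgroupOf_iff_le_normalizer hNP).2 hPn
  refine ⟨P ⧸ N.subgroupOf P, inferInstance, QuotientGroup.mk' _, ?_, ?_⟩
  · set π := QuotientGroup.mk' (N.subgroupOf P) with hπ
    let Dp : P := ⟨D, hDP⟩
    have hle : P ≤ ((Subgroup.zpowers (π Dp)).comap π).map P.subtype := by
      have hgoal : N ⊔ Subgroup.zpowers D ≤
          ((Subgroup.zpowers (π Dp)).comap π).map P.subtype := by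
        refine sup_le ?_ ?_
        · intro n hn
          refine ⟨⟨n, hNP hn⟩, ?_, rfl⟩
          have h1 : π ⟨n, hNP hn⟩ = 1 := by
            rw [hπ, QuotientGroup.mk'_apply, QuotientGroup.eq_one_iff]
            exact hn
          show π ⟨n, hNP hn⟩ ∈ Subgroup.zpowers (π Dp)
          rw [h1]
          exact Subgroup.one_mem _
        · rw [Subgroup.zpowers_le]
          exact ⟨Dp, Subgroup.mem_zpowers _, rfl⟩
      exact hgoal
    have hgen : ∀ q : P ⧸ N.subgroupOf P, q ∈ Subgroup.zpowers (π Dp) := by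
      intro q
      obtain ⟨x, rfl⟩ := QuotientGroup.mk'_surjective (N.subgroupOf P) q
      obtain ⟨y, hy, hyx⟩ := hle x.2
      have : y = x := Subtype.ext hyx
      subst this
      exact hy
    intro a b
    obtain ⟨i, rfl⟩ := hgen a
    obtain ⟨j, rfl⟩ := hgen b
    show π Dp ^ i * π Dp ^ j = π Dp ^ j * π Dp ^ i
    rw [← zpow_add, ← zpow_add, add_comm]
  · intro x hx
    rw [QuotientGroup.mk'_apply, QuotientGroup.eq_one_iff] at hx
    exact hx

theorem fol_sup_zpowers {N : Subgroup H} {D : H} (h : ∀ x ∈ N, D * x * D⁻¹ ∈ N)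
    (h' : ∀ x ∈ N, D⁻¹ * x * D ∈ N) (hN : Fol N) : Fol ↥(N ⊔ Subgroup.zpowers D) := by
  obtain ⟨Q, _, π, hc, hk⟩ := ext_cyc h h'
  refine fol_ext π ?_ (fol_comm hc)
  refine fol_of_injective (H := π.ker) (G := N)
    ⟨⟨fun x => ⟨((x : ↥(N ⊔ Subgroup.zpowers D)) : H), hk _ x.2⟩, rfl⟩, fun x y => rfl⟩ ?_ hN
  intro x y hxy
  have h4 : ((x : ↥(N ⊔ Subgroup.zpowers D)) : H) = ((y : ↥(N ⊔ Subgroup.zpowers D)) : H) :=
    congrArg (fun z : N => (z : H)) hxy
  exact Subtype.ext (Subtype.ext h4)

theorem solvable_sup_zpowers {N : Subgroup H} {D : H} (h : ∀ x ∈ N, D * x * D⁻¹ ∈ N)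
    (h' : ∀ x ∈ N, D⁻¹ * x * D ∈ N) (hN : Group.IsSolvable N) :
    Group.IsSolvable ↥(N ⊔ Subgroup.zpowers D) := by
  obtain ⟨Q, _, π, hc, hk⟩ := ext_cyc h h'
  have : Group.IsSolvable Q := Group.isSolvable_of_comm hc
  have : Group.IsSolvable π.ker := by
    refine Group.isSolvable_of_isSolvable_injective (G := π.ker) (G' := N)
      (f := ⟨⟨fun x => ⟨((x : ↥(N ⊔ Subgroup.zpowers D)) : H), hk _ x.2⟩, rfl⟩, fun x y => rfl⟩) ?_
    intro x y hxy
    have h4 : ((x : ↥(N ⊔ Subgroup.zpowers D)) : H) = ((y : ↥(N ⊔ Subgroup.zpowers D)) : H) :=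
      congrArg (fun z : N => (z : H)) hxy
    exact Subtype.ext (Subtype.ext h4)
  exact Group.isSolvable_of_ker_le_range π.ker.subtype π (by rw [Subgroup.range_subtype])

theorem solvable_sup_comm {A B : Subgroup H} (h : ∀ a ∈ A, ∀ b ∈ B, a * b = b * a)
    (hA : Group.IsSolvable A) (hB : Group.IsSolvable B) : Group.IsSolvable ↥(A ⊔ B) := by
  have hcom : ∀ (m : A) (n : B), Commute (A.subtype m) (B.subtype n) := fun a b => h a a.2 b b.2
  let f : A × B →* H := MonoidHom.noncommCoprod A.subtype B.subtype hcom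
  have hr : f.range = A ⊔ B := by
    have := MonoidHom.noncommCoprod_range A.subtype B.subtype hcom
    rw [Subgroup.range_subtype, Subgroup.range_subtype] at this
    exact this
  rw [← hr]
  exact Group.isSolvable_of_surjective (f := f.rangeRestrict) f.rangeRestrict_surjective

theorem solvable_mono {P Q : Subgroup H} (h : P ≤ Q) (hQ : Group.IsSolvable Q) : Group.IsSolvable P :=
  Group.isSolvable_of_isSolvable_injective (f := Subgroup.inclusion h) (Subgroup.inclusion_injective h)

theorem solvable_map {P : Subgroup H} (f : H →* H) (hP : Group.IsSolvable P) :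
    Group.IsSolvable (P.map f) := by
  have h : Function.Surjective (f.subgroupMap P) := f.subgroupMap_surjective P
  exact Group.isSolvable_of_surjective h

theorem solvable_zpowers (x : H) : Group.IsSolvable (Subgroup.zpowers x) :=
  Group.isSolvable_of_comm (fun a b => by
    obtain ⟨a, i, rfl⟩ := a
    obtain ⟨b, j, rfl⟩ := b
    apply Subtype.ext
    show x ^ i * x ^ j = x ^ j * x ^ i
    rw [← zpow_add, ← zpow_add, add_comm])

/-- A subgroup mapped into itself by conjugation by `D⁻¹`. -/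
theorem fol_ascending {L : Subgroup H} {D : H} (h : ∀ x ∈ L, D⁻¹ * x * D ∈ L) (hL : Fol L) :
    Fol ↥(L ⊔ Subgroup.zpowers D) := by
  let c : ℕ → (H →* H) := fun n => (MulAut.conj (D ^ n)).toMonoidHom
  have hc : ∀ n x, c n x = D ^ n * x * (D ^ n)⁻¹ := fun n x => rfl
  let P : ℕ → Subgroup H := fun n => L.map (c n)
  have hmem : ∀ n x, x ∈ P n ↔ (D ^ n)⁻¹ * x * D ^ n ∈ L := by
    intro n x
    constructor
    · rintro ⟨y, hy, rfl⟩
      have : (D ^ n)⁻¹ * c n y * D ^ n = y := by rw [hc]; group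
      rw [this]; exact hy
    · intro hx
      refine ⟨_, hx, ?_⟩
      rw [hc]; group
  have hmono : Monotone P := by
    refine monotone_nat_of_le_succ (fun n => ?_)
    intro x hx
    rw [hmem] at hx ⊢
    have := h _ hx
    have e : D⁻¹ * ((D ^ n)⁻¹ * x * D ^ n) * D = (D ^ (n + 1))⁻¹ * x * D ^ (n + 1) := by
      rw [pow_succ]; group
    rwa [e] at this
  have hfol : ∀ n, Fol (P n) := by
    intro n
    have hinj : Function.Injective (c n) := (MulAut.conj (D ^ n)).injective
    exact fol_of_injective (L.equivMapOfInjective (c n) hinj).symm.toMonoidHom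
      (L.equivMapOfInjective (c n) hinj).symm.injective hL
  have hN := fol_iSup hmono hfol
  have hd : Directed (· ≤ ·) P := hmono.directed_le
  have h1 := fol_sup_zpowers (N := ⨆ n, P n) (D := D) (by
      intro x hx
      rw [Subgroup.mem_iSup_of_directed hd] at hx ⊢
      obtain ⟨n, hn⟩ := hx
      refine ⟨n + 1, ?_⟩
      rw [hmem] at hn ⊢
      have e : (D ^ (n + 1))⁻¹ * (D * x * D⁻¹) * D ^ (n + 1) = (D ^ n)⁻¹ * x * D ^ n := by
        rw [pow_succ']; group
      rw [e]; exact hn) (by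
      intro x hx
      rw [Subgroup.mem_iSup_of_directed hd] at hx ⊢
      obtain ⟨n, hn⟩ := hx
      refine ⟨n, ?_⟩
      rw [hmem] at hn ⊢
      have e : (D ^ n)⁻¹ * (D⁻¹ * x * D) * D ^ n = D⁻¹ * ((D ^ n)⁻¹ * x * D ^ n) * D := by
        have : D * D ^ n = D ^ n * D := by rw [← pow_succ, ← pow_succ']
        have h2 : (D ^ n)⁻¹ * D⁻¹ = D⁻¹ * (D ^ n)⁻¹ := by
          rw [← mul_inv_rev, ← mul_inv_rev, this]
        calc _ = ((D ^ n)⁻¹ * D⁻¹) * x * (D * D ^ n) := by group
          _ = (D⁻¹ * (D ^ n)⁻¹) * x * (D ^ n * D) := by rw [this, h2]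
          _ = _ := by group
      rw [e]
      exact h _ hn) hN
  refine fol_mono (sup_le_sup_right ?_ _) h1
  have : L = P 0 := by
    ext x
    rw [hmem]; simp
  rw [this]
  exact le_iSup P 0

end Pool.Agent.Helper375.EA
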