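import Mathlib

set_option autoImplicit false

open Filter Topology
open scoped ContDiff

namespace Pool.Agent.Helper375.EA

noncomputable section

/-! ### Twists -/

/-- rotation about `c` by the angle `θ (|z - c|²)` -/
def twf (c : ℂ) (θ : ℝ → ℝ) (z : ℂ) : ℂ :=
  c + (z - c) * Complex.exp (θ (‖z - c‖ ^ 2) * Complex.I)

theorem twf_sub (c : ℂ) (θ : ℝ → ℝ) (z : ℂ) :
    twf c θ z - c = (z - c) * Complex.exp (θ (‖z - c‖ ^ 2) * Complex.I) := by
  unfold twf; ring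

theorem norm_twf_sub (c : ℂ) (θ : ℝ → ℝ) (z : ℂ) : ‖twf c θ z - c‖ = ‖z - c‖ := by
  rw [twf_sub, norm_mul, Complex.norm_exp_ofReal_mul_I, mul_one]

theorem twf_twf (c : ℂ) (θ η : ℝ → ℝ) (z : ℂ) :
    twf c θ (twf c η z) = twf c (fun s => θ s + η s) z := by
  have h := norm_twf_sub c η z
  conv_lhs => unfold twf
  change c + (twf c η z - c) * Complex.exp (θ (‖twf c η z - c‖ ^ 2) * Complex.I) = _
  rw [h, twf_sub]
  unfold twf
  push_cast
  rw [add_mul, Complex.exp_add]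
  ring

theorem twf_zero (c : ℂ) (z : ℂ) : twf c (fun _ => 0) z = z := by
  unfold twf; simp

theorem contDiff_twf (c : ℂ) {θ : ℝ → ℝ} (hθ : ContDiff ℝ ∞ θ) : ContDiff ℝ ∞ (twf c θ) := by
  unfold twf
  have h1 : ContDiff ℝ ∞ (fun z : ℂ => z - c) := contDiff_id.sub contDiff_const
  have h2 : ContDiff ℝ ∞ (fun z : ℂ => ‖z - c‖ ^ 2) := h1.norm_sq ℝ
  have h3 : ContDiff ℝ ∞ (fun z : ℂ => θ (‖z - c‖ ^ 2)) := hθ.comp h2
  have h4 : ContDiff ℝ ∞ (fun z : ℂ => ((θ (‖z - c‖ ^ 2) : ℝ) : ℂ)) :=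
    Complex.ofRealCLM.contDiff.comp h3
  have h5 : ContDiff ℝ ∞ (fun z : ℂ => Complex.exp (((θ (‖z - c‖ ^ 2) : ℝ) : ℂ) * Complex.I)) :=
    (Complex.contDiff_exp (𝕜 := ℝ)).comp (h4.mul contDiff_const)
  exact contDiff_const.add (h1.mul h5)

theorem contDiff_neg_fun {θ : ℝ → ℝ} (hθ : ContDiff ℝ ∞ θ) :
    ContDiff ℝ ∞ (fun s => - θ s) := hθ.neg

/-- the twist as a homeomorphism -/
def tw (c : ℂ) (θ : ℝ → ℝ) (hθ : ContDiff ℝ ∞ θ) : ℂ ≃ₜ ℂ where
  toFun := twf c θ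
  invFun := twf c (fun s => - θ s)
  left_inv := fun z => by
    rw [twf_twf]
    have : (fun s => -θ s + θ s) = fun _ => (0 : ℝ) := by funext s; ring
    rw [this, twf_zero]
  right_inv := fun z => by
    rw [twf_twf]
    have : (fun s => θ s + -θ s) = fun _ => (0 : ℝ) := by funext s; ring
    rw [this, twf_zero]
  continuous_toFun := (contDiff_twf c hθ).continuous
  continuous_invFun := (contDiff_twf c hθ.neg).continuous

theorem tw_apply (c : ℂ) (θ : ℝ → ℝ) (hθ : ContDiff ℝ ∞ θ) (z : ℂ) : tw c θ hθ z = twf c θ z := rfl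

theorem tw_inv_apply (c : ℂ) (θ : ℝ → ℝ) (hθ : ContDiff ℝ ∞ θ) (z : ℂ) :
    (tw c θ hθ)⁻¹ z = twf c (fun s => - θ s) z := rfl

/-! ### Orientation preserving smooth diffeomorphisms -/

theorem det_id' : (ContinuousLinearMap.id ℝ ℂ).det = 1 := by
  unfold ContinuousLinearMap.det
  exact LinearMap.det_id

theorem det_comp' (A B : ℂ →L[ℝ] ℂ) : (A.comp B).det = A.det * B.det := by
  unfold ContinuousLinearMap.det
  rw [← LinearMap.det_comp]
  rfl

/-- smooth in both directions -/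
def BiSmooth (f : ℂ ≃ₜ ℂ) : Prop :=
  ContDiff ℝ ∞ (f : ℂ → ℂ) ∧ ContDiff ℝ ∞ ((f⁻¹ : ℂ ≃ₜ ℂ) : ℂ → ℂ)

theorem BiSmooth.one : BiSmooth 1 := by
  refine ⟨?_, ?_⟩
  · exact contDiff_id
  · exact contDiff_id

theorem BiSmooth.mul {f g : ℂ ≃ₜ ℂ} (hf : BiSmooth f) (hg : BiSmooth g) : BiSmooth (f * g) := by
  refine ⟨hf.1.comp hg.1, ?_⟩
  have h : ((f * g)⁻¹ : ℂ ≃ₜ ℂ) = g⁻¹ * f⁻¹ := mul_inv_rev f g
  rw [h]
  exact hg.2.comp hf.2

theorem BiSmooth.inv {f : ℂ ≃ₜ ℂ} (hf : BiSmooth f) : BiSmooth f⁻¹ := by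
  refine ⟨hf.2, ?_⟩
  rw [inv_inv]
  exact hf.1

theorem BiSmooth.diff {f : ℂ ≃ₜ ℂ} (hf : BiSmooth f) : Differentiable ℝ (f : ℂ → ℂ) :=
  hf.1.differentiable (by simp)

theorem det_inv_mul' {f : ℂ ≃ₜ ℂ} (hf : BiSmooth f) (z : ℂ) :
    (fderiv ℝ (f⁻¹ : ℂ ≃ₜ ℂ) (f z)).det * (fderiv ℝ (f : ℂ → ℂ) z).det = 1 := by
  rw [← det_comp', ← fderiv_comp z (hf.inv.diff _) (hf.diff _)]
  have h : ((f⁻¹ : ℂ ≃ₜ ℂ) : ℂ → ℂ) ∘ (f : ℂ → ℂ) = id := by
    funext w; exact f.symm_apply_apply w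
  rw [h, fderiv_id, det_id']

theorem det_ne_zero {f : ℂ ≃ₜ ℂ} (hf : BiSmooth f) (z : ℂ) :
    (fderiv ℝ (f : ℂ → ℂ) z).det ≠ 0 := by
  intro h
  have := det_inv_mul' hf z
  rw [h, mul_zero] at this
  exact zero_ne_one this

theorem continuous_det {f : ℂ ≃ₜ ℂ} (hf : BiSmooth f) :
    Continuous (fun z => (fderiv ℝ (f : ℂ → ℂ) z).det) := by
  have h1 : Continuous (fun z => fderiv ℝ (f : ℂ → ℂ) z) := hf.1.continuous_fderiv (by simp)
  exact ContinuousLinearMap.continuous_det.comp h1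

/-- positivity of the Jacobian at one point suffices -/
theorem det_pos_of_point {f : ℂ ≃ₜ ℂ} (hf : BiSmooth f) (c : ℂ)
    (h : 0 < (fderiv ℝ (f : ℂ → ℂ) c).det) (z : ℂ) : 0 < (fderiv ℝ (f : ℂ → ℂ) z).det := by
  by_contra h2
  push Not at h2
  have h3 := (continuous_det hf)
  obtain ⟨w, hw⟩ := mem_range_of_exists_le_of_exists_ge h3 ⟨z, h2⟩ ⟨c, h.le⟩
  exact det_ne_zero hf w hw

/-- the group of orientation preserving smooth diffeomorphisms of the plane -/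
def smoothPlus : Subgroup (ℂ ≃ₜ ℂ) where
  carrier := {f | BiSmooth f ∧ ∀ z : ℂ, 0 < (fderiv ℝ (f : ℂ → ℂ) z).det}
  mul_mem' := by
    rintro f g ⟨hf, hf'⟩ ⟨hg, hg'⟩
    refine ⟨hf.mul hg, fun z => ?_⟩
    have h : ((f * g : ℂ ≃ₜ ℂ) : ℂ → ℂ) = (f : ℂ → ℂ) ∘ g := rfl
    rw [h, fderiv_comp z (hf.diff _) (hg.diff _), det_comp']
    exact mul_pos (hf' _) (hg' _)
  one_mem' := by
    refine ⟨BiSmooth.one, fun z => ?_⟩
    have h : ((1 : ℂ ≃ₜ ℂ) : ℂ → ℂ) = id := rfl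
    rw [h, fderiv_id, det_id']
    exact one_pos
  inv_mem' := by
    rintro f ⟨hf, hf'⟩
    refine ⟨hf.inv, fun z => ?_⟩
    have h := det_inv_mul' hf (f⁻¹ z)
    have h2 : f (f⁻¹ z) = z := f.apply_symm_apply z
    rw [h2] at h
    have h3 := hf' (f⁻¹ z)
    by_contra h4
    push Not at h4
    have := mul_nonpos_of_nonpos_of_nonneg h4 h3.le
    linarith

theorem mem_smoothPlus {f : ℂ ≃ₜ ℂ} (hf : BiSmooth f) (c : ℂ)
    (h : ∀ᶠ z in 𝓝 c, f z = z) : f ∈ smoothPlus := by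
  refine ⟨hf, det_pos_of_point hf c ?_⟩
  have h1 : (f : ℂ → ℂ) =ᶠ[𝓝 c] id := h
  rw [h1.fderiv_eq, fderiv_id, det_id']
  exact one_pos

theorem biSmooth_tw (c : ℂ) (θ : ℝ → ℝ) (hθ : ContDiff ℝ ∞ θ) : BiSmooth (tw c θ hθ) :=
  ⟨contDiff_twf c hθ, contDiff_twf c hθ.neg⟩

/-! ### Spreading a map supported in an annulus -/

/-- the scale of a point -/
def lev (z : ℂ) : ℕ := Nat.log 10 ⌊‖z‖⌋₊

theorem lev_eq {z : ℂ} {j : ℕ} (h1 : j = 0 ∨ (10 : ℝ) ^ j ≤ ‖z‖) (h2 : ‖z‖ < 10 ^ (j + 1)) :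
    lev z = j := by
  unfold lev
  have h3 : ⌊‖z‖⌋₊ < 10 ^ (j + 1) := by
    rw [Nat.floor_lt (norm_nonneg z)]
    exact_mod_cast h2
  rcases h1 with rfl | h1
  · rw [Nat.log_eq_zero_iff]
    left
    simpa using h3
  · have h4 : 10 ^ j ≤ ⌊‖z‖⌋₊ := by
      apply Nat.le_floor
      exact_mod_cast h1
    exact Nat.log_eq_of_pow_le_of_lt_pow h4 h3

theorem lev_spec (z : ℂ) : (lev z = 0 ∨ (10 : ℝ) ^ lev z ≤ ‖z‖) ∧ ‖z‖ < 10 ^ (lev z + 1) := by
  constructor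
  · by_cases h : ⌊‖z‖⌋₊ = 0
    · left; unfold lev; rw [h]; simp
    · right
      have h1 : 10 ^ lev z ≤ ⌊‖z‖⌋₊ := Nat.pow_log_le_self 10 h
      have h2 : ((10 ^ lev z : ℕ) : ℝ) ≤ ‖z‖ := (Nat.le_floor_iff (norm_nonneg z)).1 h1
      exact_mod_cast h2
  · have h1 : ⌊‖z‖⌋₊ < 10 ^ (lev z + 1) := Nat.lt_pow_succ_log_self (by norm_num) _
    have h2 := (Nat.floor_lt (norm_nonneg z)).1 h1
    exact_mod_cast h2

/-- `f` is the identity off the annulus `1 < |w| < 9` -/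
def Ann (f : ℂ ≃ₜ ℂ) : Prop := ∀ w : ℂ, (‖w‖ ≤ 1 ∨ 9 ≤ ‖w‖) → f w = w

theorem Ann.inv {f : ℂ ≃ₜ ℂ} (hf : Ann f) : Ann f⁻¹ := by
  intro w hw
  have h := hf w hw
  conv_lhs => rw [← h]
  exact f.symm_apply_apply w

theorem Ann.image {f : ℂ ≃ₜ ℂ} (hf : Ann f) {w : ℂ} (h1 : 1 < ‖w‖) (h2 : ‖w‖ < 9) :
    1 < ‖f w‖ ∧ ‖f w‖ < 9 := by
  by_contra h
  have h3 : ‖f w‖ ≤ 1 ∨ 9 ≤ ‖f w‖ := by
    by_cases h4 : 1 < ‖f w‖
    · right
      by_contra h5
      push Not at h5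
      exact h ⟨h4, h5⟩
    · left; push Not at h4; exact h4
  have h4 := hf _ h3
  have h5 := f.injective h4
  rw [h5] at h3
  rcases h3 with h3 | h3 <;> linarith

/-- the bounds at the scale of the point are preserved -/
theorem Ann.bounds {f : ℂ ≃ₜ ℂ} (hf : Ann f) {w : ℂ} :
    (1 ≤ ‖w‖ → 1 ≤ ‖f w‖) ∧ (‖w‖ < 10 → ‖f w‖ < 10) := by
  by_cases h1 : 1 < ‖w‖ ∧ ‖w‖ < 9
  · have := hf.image h1.1 h1.2
    exact ⟨fun _ => this.1.le, fun _ => by linarith [this.2]⟩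
  · have h2 : ‖w‖ ≤ 1 ∨ 9 ≤ ‖w‖ := by
      by_cases h4 : 1 < ‖w‖
      · right
        by_contra h5
        push Not at h5
        exact h1 ⟨h4, h5⟩
      · left; push Not at h4; exact h4
    rw [hf w h2]
    exact ⟨id, id⟩

/-- the product of the conjugates `D^j f D^{-j}`, `j ≥ 0`, where `D z = 10 z` -/
def spr (f : ℂ → ℂ) (z : ℂ) : ℂ := 10 ^ lev z * f (z / 10 ^ lev z)

theorem norm_div_pow (z : ℂ) (j : ℕ) : ‖z / 10 ^ j‖ = ‖z‖ / 10 ^ j := by
  rw [norm_div, norm_pow]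
  norm_num

theorem norm_mul_pow (w : ℂ) (j : ℕ) : ‖10 ^ j * w‖ = 10 ^ j * ‖w‖ := by
  rw [norm_mul, norm_pow]
  norm_num

theorem lev_spr {f : ℂ ≃ₜ ℂ} (hf : Ann f) (z : ℂ) : lev (spr f z) = lev z := by
  obtain ⟨h1, h2⟩ := lev_spec z
  have hp : (0 : ℝ) < 10 ^ lev z := by positivity
  apply lev_eq
  · rcases h1 with h1 | h1
    · left; exact h1
    · right
      unfold spr
      rw [norm_mul_pow]
      have h3 : 1 ≤ ‖z / 10 ^ lev z‖ := by
        rw [norm_div_pow, le_div_iff₀ hp]; linarith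
      have := hf.bounds.1 h3
      nlinarith
  · unfold spr
    rw [norm_mul_pow, pow_succ]
    have h3 : ‖z / 10 ^ lev z‖ < 10 := by
      rw [norm_div_pow, div_lt_iff₀ hp]
      rw [pow_succ] at h2; linarith
    have := hf.bounds.2 h3
    nlinarith

theorem spr_spr {f : ℂ ≃ₜ ℂ} (hf : Ann f) (g : ℂ → ℂ) (z : ℂ) :
    spr g (spr f z) = spr (fun w => g (f w)) z := by
  have h := lev_spr hf z
  conv_lhs => unfold spr
  change 10 ^ lev (spr f z) * g ((spr f z) / 10 ^ lev (spr f z)) = _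
  rw [h]
  unfold spr
  have hp : (10 : ℂ) ^ lev z ≠ 0 := pow_ne_zero _ (by norm_num)
  rw [mul_div_cancel_left₀ _ hp]

theorem spr_id (z : ℂ) : spr (fun w => w) z = z := by
  unfold spr
  have hp : (10 : ℂ) ^ lev z ≠ 0 := pow_ne_zero _ (by norm_num)
  rw [mul_div_cancel₀ _ hp]

/-- local formula -/
theorem spr_local {f : ℂ ≃ₜ ℂ} (hf : Ann f) {z : ℂ} {j : ℕ}
    (h1 : j = 0 ∨ (9 : ℝ) / 10 * 10 ^ j < ‖z‖) (h2 : ‖z‖ < 10 ^ (j + 1)) :
    spr f z = 10 ^ j * f (z / 10 ^ j) := by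
  have hp : (10 : ℂ) ^ j ≠ 0 := pow_ne_zero _ (by norm_num)
  have hp' : (0 : ℝ) < 10 ^ j := by positivity
  by_cases h3 : j = 0 ∨ (10 : ℝ) ^ j ≤ ‖z‖
  · have := lev_eq h3 h2
    unfold spr
    rw [this]
  · push Not at h3
    obtain ⟨h3, h4⟩ := h3
    obtain ⟨i, rfl⟩ := Nat.exists_eq_succ_of_ne_zero h3
    have h5 : (9 : ℝ) / 10 * 10 ^ (i + 1) < ‖z‖ := by
      rcases h1 with h1 | h1
      · exact absurd h1 h3
      · exact h1
    have hq : (0 : ℝ) < 10 ^ i := by positivity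
    have hq' : (10 : ℂ) ^ i ≠ 0 := pow_ne_zero _ (by norm_num)
    have h6 : lev z = i := by
      apply lev_eq
      · right
        rw [pow_succ] at h5
        nlinarith
      · exact h4
    unfold spr
    rw [h6]
    have e1 : f (z / 10 ^ i) = z / 10 ^ i := by
      apply hf
      right
      rw [norm_div_pow, le_div_iff₀ hq]
      rw [pow_succ] at h5
      nlinarith
    have e2 : f (z / 10 ^ (i + 1)) = z / 10 ^ (i + 1) := by
      apply hf
      left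
      rw [norm_div_pow, div_le_iff₀ hp']
      linarith
    show 10 ^ i * f (z / 10 ^ i) = 10 ^ (i + 1) * f (z / 10 ^ (i + 1))
    rw [e1, e2, mul_div_cancel₀ _ hq', mul_div_cancel₀ _ hp]

theorem spr_eventually {f : ℂ ≃ₜ ℂ} (hf : Ann f) (z : ℂ) :
    spr f =ᶠ[𝓝 z] fun w => 10 ^ lev z * f (w / 10 ^ lev z) := by
  obtain ⟨h1, h2⟩ := lev_spec z
  have hp : (0 : ℝ) < 10 ^ lev z := by positivity
  have hc : Continuous (fun w : ℂ => ‖w‖) := continuous_norm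
  have e2 : ∀ᶠ w in 𝓝 z, ‖w‖ < 10 ^ (lev z + 1) := hc.continuousAt.eventually_lt_const h2
  have e1 : ∀ᶠ w in 𝓝 z, lev z = 0 ∨ (9 : ℝ) / 10 * 10 ^ lev z < ‖w‖ := by
    rcases h1 with h1 | h1
    · exact Filter.Eventually.of_forall (fun w => Or.inl h1)
    · have : (9 : ℝ) / 10 * 10 ^ lev z < ‖z‖ := by nlinarith
      exact (hc.continuousAt.eventually_const_lt this).mono (fun w hw => Or.inr hw)
  filter_upwards [e1, e2] with w hw1 hw2
  exact spr_local hf hw1 hw2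

theorem continuous_spr {f : ℂ ≃ₜ ℂ} (hf : Ann f) : Continuous (spr f) := by
  rw [continuous_iff_continuousAt]
  intro z
  refine ContinuousAt.congr ?_ (spr_eventually hf z).symm
  have := f.continuous
  apply Continuous.continuousAt
  fun_prop

theorem contDiff_spr {f : ℂ ≃ₜ ℂ} (hf : Ann f) (hs : ContDiff ℝ ∞ (f : ℂ → ℂ)) :
    ContDiff ℝ ∞ (spr f) := by
  rw [contDiff_iff_contDiffAt]
  intro z
  refine ContDiffAt.congr_of_eventuallyEq ?_ (spr_eventually hf z)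
  apply ContDiff.contDiffAt
  have h1 : ContDiff ℝ ∞ (fun w : ℂ => w / 10 ^ lev z) := contDiff_id.div_const _
  exact contDiff_const.mul (hs.comp h1)

/-- the spread homeomorphism -/
def spread (f : ℂ ≃ₜ ℂ) (hf : Ann f) : ℂ ≃ₜ ℂ where
  toFun := spr f
  invFun := spr (f⁻¹ : ℂ ≃ₜ ℂ)
  left_inv := fun z => by
    rw [spr_spr hf]
    have : (fun w => (f⁻¹ : ℂ ≃ₜ ℂ) (f w)) = fun w => w := by
      funext w; exact f.symm_apply_apply w
    rw [this, spr_id]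
  right_inv := fun z => by
    rw [spr_spr hf.inv]
    have : (fun w => f ((f⁻¹ : ℂ ≃ₜ ℂ) w)) = fun w => w := by
      funext w; exact f.apply_symm_apply w
    rw [this, spr_id]
  continuous_toFun := continuous_spr hf
  continuous_invFun := continuous_spr hf.inv

theorem spread_apply (f : ℂ ≃ₜ ℂ) (hf : Ann f) (z : ℂ) : spread f hf z = spr f z := rfl

theorem biSmooth_spread {f : ℂ ≃ₜ ℂ} (hf : Ann f) (hs : BiSmooth f) : BiSmooth (spread f hf) :=
  ⟨contDiff_spr hf hs.1, contDiff_spr hf.inv hs.2⟩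

theorem spr_small {f : ℂ ≃ₜ ℂ} (hf : Ann f) {z : ℂ} (hz : ‖z‖ ≤ 1) : spr f z = z := by
  rw [spr_local hf (j := 0) (Or.inl rfl) (by norm_num; linarith)]
  simp only [pow_zero, one_mul, div_one]
  exact hf z (Or.inl hz)

/-! ### The maps -/

/-- profile of the Dehn twist: `2 π` for `s ≤ 1`, `0` for `s ≥ 2` -/
def beta (s : ℝ) : ℝ := 2 * Real.pi * Real.smoothTransition (2 - s)

/-- profile of the half-turn: `π` for `s ≤ 12`, `0` for `s ≥ 16` -/
def alph (s : ℝ) : ℝ := Real.pi * Real.smoothTransition ((16 - s) / 4)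

theorem contDiff_beta : ContDiff ℝ ∞ beta := by
  unfold beta
  exact contDiff_const.mul (Real.smoothTransition.contDiff.comp (contDiff_const.sub contDiff_id))

theorem contDiff_alph : ContDiff ℝ ∞ alph := by
  unfold alph
  exact contDiff_const.mul (Real.smoothTransition.contDiff.comp
    ((contDiff_const.sub contDiff_id).div_const _))

theorem beta_small {s : ℝ} (h : s ≤ 1) : beta s = 2 * Real.pi := by
  unfold beta
  rw [Real.smoothTransition.one_of_one_le (by linarith), mul_one]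

theorem beta_large {s : ℝ} (h : 2 ≤ s) : beta s = 0 := by
  unfold beta
  rw [Real.smoothTransition.zero_of_nonpos (by linarith), mul_zero]

theorem alph_small {s : ℝ} (h : s ≤ 12) : alph s = Real.pi := by
  unfold alph
  rw [Real.smoothTransition.one_of_one_le (by linarith), mul_one]

theorem alph_large {s : ℝ} (h : 16 ≤ s) : alph s = 0 := by
  unfold alph
  rw [Real.smoothTransition.zero_of_nonpos (by linarith), mul_zero]

/-- the Dehn twist about the centre `c` -/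
def tc (c : ℂ) : ℂ ≃ₜ ℂ := tw c beta contDiff_beta

/-- the half-turn about `2` -/
def kap : ℂ ≃ₜ ℂ := tw 2 alph contDiff_alph

/-- the dilation by `10` -/
def dil : ℂ ≃ₜ ℂ := Homeomorph.mulLeft₀ (10 : ℂ) (by norm_num)

theorem dil_apply (z : ℂ) : dil z = 10 * z := rfl

theorem dil_inv_apply (z : ℂ) : dil⁻¹ z = z / 10 := by
  have h : dil (z / 10) = z := by rw [dil_apply]; ring
  conv_lhs => rw [← h]
  exact dil.symm_apply_apply _

theorem tc_fix_large {c z : ℂ} (h : 2 ≤ ‖z - c‖ ^ 2) : tc c z = z := by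
  show twf c beta z = z
  unfold twf
  rw [beta_large h]
  simp

theorem tc_fix_small {c z : ℂ} (h : ‖z - c‖ ^ 2 ≤ 1) : tc c z = z := by
  show twf c beta z = z
  unfold twf
  rw [beta_small h]
  have : Complex.exp (((2 * Real.pi : ℝ) : ℂ) * Complex.I) = 1 := by
    push_cast
    exact Complex.exp_two_pi_mul_I
  rw [this]
  ring

theorem kap_fix {z : ℂ} (h : 16 ≤ ‖z - 2‖ ^ 2) : kap z = z := by
  show twf 2 alph z = z
  unfold twf
  rw [alph_large h]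
  simp

theorem kap_half {z : ℂ} (h : ‖z - 2‖ ^ 2 ≤ 12) : kap z = 4 - z := by
  show twf 2 alph z = _
  unfold twf
  rw [alph_small h, Complex.exp_pi_mul_I]
  ring

theorem ann_tc0 : Ann (tc 0) := by
  intro w hw
  rcases hw with hw | hw
  · apply tc_fix_small
    rw [sub_zero]
    have := norm_nonneg w
    nlinarith
  · apply tc_fix_large
    rw [sub_zero]
    nlinarith

theorem ann_tc4 : Ann (tc 4) := by
  intro w hw
  apply tc_fix_large
  rcases hw with hw | hw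
  · have h1 : ‖(4 : ℂ)‖ ≤ ‖w - 4‖ + ‖w‖ := by
      have := norm_sub_le w (w - 4)
      simpa [add_comm] using this
    have h2 : ‖(4 : ℂ)‖ = 4 := by norm_num
    nlinarith
  · have h1 : ‖w‖ ≤ ‖w - 4‖ + ‖(4 : ℂ)‖ := by
      have := norm_add_le (w - 4) 4
      simpa using this
    have h2 : ‖(4 : ℂ)‖ = 4 := by norm_num
    nlinarith

/-- the essential twists at all scales `10^j`, `j ≥ 0` -/
def bb : ℂ ≃ₜ ℂ := spread (tc 0) ann_tc0

/-- the off-centre twists at all scales -/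
def hh : ℂ ≃ₜ ℂ := spread (tc 4) ann_tc4

end

end Pool.Agent.Helper375.EA
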