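import Mathlib
import Pool.Agent.Helper375.EA.Grp
import Pool.Agent.Helper375.EA.Maps

set_option autoImplicit false

open Filter Topology

namespace Pool.Agent.Helper375.EA

open HJI.Fol

noncomputable section

/-- homeomorphisms which are the identity off `A` -/
def supp (A : Set ℂ) : Subgroup (ℂ ≃ₜ ℂ) where
  carrier := {f | ∀ z, z ∉ A → f z = z}
  mul_mem' := by
    intro f g hf hg z hz
    show f (g z) = z
    rw [hg z hz, hf z hz]
  one_mem' := fun z _ => rfl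
  inv_mem' := by
    intro f hf z hz
    have h := hf z hz
    conv_lhs => rw [← h]
    exact f.symm_apply_apply z

theorem mem_supp {A : Set ℂ} {f : ℂ ≃ₜ ℂ} : f ∈ supp A ↔ ∀ z, z ∉ A → f z = z := Iff.rfl

theorem supp_mono {A B : Set ℂ} (h : A ⊆ B) : supp A ≤ supp B := fun _ hf z hz =>
  hf z (fun h' => hz (h h'))

theorem supp_maps {A : Set ℂ} {f : ℂ ≃ₜ ℂ} (hf : f ∈ supp A) {z : ℂ} (hz : z ∈ A) : f z ∈ A := by
  by_contra h
  have h1 := hf _ h
  have h2 := f.injective h1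
  rw [h2] at h
  exact h hz

theorem comm_of_disjoint {A B : Set ℂ} (h : ∀ z, z ∈ A → z ∉ B) {f g : ℂ ≃ₜ ℂ}
    (hf : f ∈ supp A) (hg : g ∈ supp B) : f * g = g * f := by
  ext1 z
  show f (g z) = g (f z)
  by_cases hz : z ∈ A
  · rw [hg z (h z hz), hg _ (h _ (supp_maps hf hz))]
  · rw [hf z hz]
    by_cases hz2 : z ∈ B
    · exact hf _ (fun h3 => h _ h3 (supp_maps hg hz2))
    · rw [hg z hz2, hf z hz]

/-- conjugation -/
theorem conj_supp {A B : Set ℂ} {k f : ℂ ≃ₜ ℂ} (hf : f ∈ supp A) (h : ∀ z, z ∈ A → k z ∈ B) :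
    k * f * k⁻¹ ∈ supp B := by
  intro z hz
  have h1 : k (k⁻¹ z) = z := k.apply_symm_apply z
  have h2 : k⁻¹ z ∉ A := fun h3 => hz (by rw [← h1]; exact h _ h3)
  show k (f (k⁻¹ z)) = z
  rw [hf _ h2, h1]

/-! ### Norm estimates -/

theorem sq_le_12 {z : ℂ} (h : ‖z‖ ^ 2 ≤ 2) : ‖z - 2‖ ^ 2 ≤ 12 := by
  have h1 : ‖z - 2‖ ≤ ‖z‖ + 2 := by
    have := norm_sub_le z 2
    have h2 : ‖(2 : ℂ)‖ = 2 := by norm_num
    rwa [h2] at this
  have h3 := norm_nonneg (z - 2)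
  have h4 := norm_nonneg z
  have h5 : ‖z‖ ≤ 1.42 := by
    by_contra h6
    push Not at h6
    nlinarith
  nlinarith

theorem sq_le_12' {z : ℂ} (h : ‖z - 4‖ ^ 2 ≤ 2) : ‖z - 2‖ ^ 2 ≤ 12 := by
  have h0 : ‖4 - z‖ ^ 2 ≤ 2 := by rwa [norm_sub_rev]
  have h1 := sq_le_12 h0
  have h2 : (4 - z - 2 : ℂ) = -(z - 2) := by ring
  rwa [h2, norm_neg] at h1

theorem kap_half0 {z : ℂ} (h : ‖z‖ ^ 2 ≤ 2) : kap z = 4 - z := kap_half (sq_le_12 h)

theorem kap_half4 {z : ℂ} (h : ‖z - 4‖ ^ 2 ≤ 2) : kap z = 4 - z := kap_half (sq_le_12' h)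

/-- small disc -/
def E0 : Set ℂ := {z | ‖z‖ ≤ 1}
/-- its image -/
def E4 : Set ℂ := {z | ‖z - 4‖ ≤ 1}
/-- the collar region of `0` -/
def A0 : Set ℂ := {z | 1 < ‖z‖ ^ 2 ∧ ‖z‖ ^ 2 < 2}
/-- the collar region of `4` -/
def A4 : Set ℂ := {z | 1 < ‖z - 4‖ ^ 2 ∧ ‖z - 4‖ ^ 2 < 2}
/-- complement of the half-turn disc -/
def Kc : Set ℂ := {z | 12 < ‖z - 2‖ ^ 2}

theorem four_le {z : ℂ} : 4 ≤ ‖z - 4‖ + ‖z‖ := by
  have h1 : ‖(4 : ℂ)‖ ≤ ‖z - 4‖ + ‖z‖ := by
    have := norm_sub_le z (z - 4)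
    simpa [add_comm] using this
  have h2 : ‖(4 : ℂ)‖ = 4 := by norm_num
  linarith

theorem le_five {z : ℂ} : ‖z‖ ≤ ‖z - 4‖ + 4 := by
  have h1 : ‖z‖ ≤ ‖z - 4‖ + ‖(4 : ℂ)‖ := by
    have := norm_add_le (z - 4) 4
    simpa using this
  have h2 : ‖(4 : ℂ)‖ = 4 := by norm_num
  linarith

theorem tc0_mem : tc 0 ∈ supp A0 := by
  intro z hz
  by_cases h : 1 < ‖z‖ ^ 2
  · have h2 : 2 ≤ ‖z‖ ^ 2 := by
      by_contra h3
      push Not at h3
      exact hz ⟨h, h3⟩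
    apply tc_fix_large
    rwa [sub_zero]
  · push Not at h
    apply tc_fix_small
    rwa [sub_zero]

theorem tc4_mem : tc 4 ∈ supp A4 := by
  intro z hz
  by_cases h : 1 < ‖z - 4‖ ^ 2
  · have h2 : 2 ≤ ‖z - 4‖ ^ 2 := by
      by_contra h3
      push Not at h3
      exact hz ⟨h, h3⟩
    exact tc_fix_large h2
  · push Not at h
    exact tc_fix_small h

theorem kap2_mem : kap * kap ∈ supp Kc := by
  intro z hz
  have h : ‖z - 2‖ ^ 2 ≤ 12 := by
    by_contra h2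
    push Not at h2
    exact hz h2
  show kap (kap z) = z
  rw [kap_half h]
  have h3 : ‖(4 - z) - 2‖ ^ 2 ≤ 12 := by
    have h2 : (4 - z - 2 : ℂ) = -(z - 2) := by ring
    rwa [h2, norm_neg]
  rw [kap_half h3]
  ring

theorem kap_mem : kap ∈ supp {z | ‖z‖ ≤ 6} := by
  intro z hz
  apply kap_fix
  have h1 : 6 < ‖z‖ := by
    by_contra h2
    push Not at h2
    exact hz h2
  have h2 : ‖z‖ ≤ ‖z - 2‖ + 2 := by
    have h1 : ‖z‖ ≤ ‖z - 2‖ + ‖(2 : ℂ)‖ := by
      have := norm_add_le (z - 2) 2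
      simpa using this
    have h2 : ‖(2 : ℂ)‖ = 2 := by norm_num
    linarith
  nlinarith

theorem bb_mem : bb ∈ supp {z | 1 < ‖z‖} := by
  intro z hz
  exact spr_small ann_tc0 (by simpa using hz)

theorem hh_mem : hh ∈ supp {z | 1 < ‖z‖} := by
  intro z hz
  exact spr_small ann_tc4 (by simpa using hz)

/-! ### Relations -/

theorem kap_tc0 : kap * tc 0 * kap⁻¹ = tc 4 := by
  have key : kap * tc 0 = tc 4 * kap := by
    ext1 z
    show kap (tc 0 z) = tc 4 (kap z)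
    by_cases h : ‖z‖ ^ 2 ≤ 2
    · have h1 : ‖tc 0 z‖ = ‖z‖ := by
        have := norm_twf_sub 0 beta z
        rw [sub_zero, sub_zero] at this
        exact this
      rw [kap_half0 h, kap_half0 (by rw [h1]; exact h)]
      show 4 - twf 0 beta z = twf 4 beta (4 - z)
      unfold twf
      have e : (4 - z - 4 : ℂ) = -z := by ring
      rw [e, norm_neg, sub_zero]
      ring
    · push Not at h
      have h1 : tc 0 z = z := tc_fix_large (by rw [sub_zero]; exact h.le)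
      rw [h1]
      have h2 : 2 ≤ ‖kap z - 4‖ ^ 2 := by
        by_contra h3
        push Not at h3
        have h4 : ‖4 - kap z‖ ^ 2 ≤ 2 := by rw [norm_sub_rev]; exact h3.le
        have h5 := kap_half0 h4
        have h6 : kap (4 - kap z) = kap z := by rw [h5]; ring
        have h7 := kap.injective h6
        rw [h7] at h4
        linarith
      exact (tc_fix_large h2).symm
  rw [key]
  group

theorem bb_hh : bb * hh = hh * bb := by
  have hA : bb ∈ supp {z | 1 < ‖z / 10 ^ lev z‖ ^ 2 ∧ ‖z / 10 ^ lev z‖ ^ 2 < 2} := by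
    intro z hz
    have h : tc 0 (z / 10 ^ lev z) = z / 10 ^ lev z := tc0_mem _ hz
    show 10 ^ lev z * tc 0 (z / 10 ^ lev z) = z
    rw [h, mul_div_cancel₀ _ (pow_ne_zero _ (by norm_num))]
  have hB : hh ∈ supp {z | 1 < ‖z / 10 ^ lev z - 4‖ ^ 2 ∧ ‖z / 10 ^ lev z - 4‖ ^ 2 < 2} := by
    intro z hz
    have h : tc 4 (z / 10 ^ lev z) = z / 10 ^ lev z := tc4_mem _ hz
    show 10 ^ lev z * tc 4 (z / 10 ^ lev z) = z
    rw [h, mul_div_cancel₀ _ (pow_ne_zero _ (by norm_num))]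
  refine comm_of_disjoint ?_ hA hB
  rintro z ⟨_, h1⟩ ⟨_, h2⟩
  have h3 := @four_le (z / 10 ^ lev z)
  have h4 := norm_nonneg (z / 10 ^ lev z)
  have h5 := norm_nonneg (z / 10 ^ lev z - 4)
  have h6 := sq_nonneg (‖z / 10 ^ lev z‖ - ‖z / 10 ^ lev z - 4‖)
  have h7 : (4 : ℝ) ^ 2 ≤ (‖z / 10 ^ lev z - 4‖ + ‖z / 10 ^ lev z‖) ^ 2 :=
    pow_le_pow_left₀ (by norm_num) h3 2
  nlinarith

theorem dil_spread {f : ℂ ≃ₜ ℂ} (hf : Ann f) : spread f hf = f * (dil * spread f hf * dil⁻¹) := by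
  ext1 z
  show spr f z = f (dil (spr f (dil⁻¹ z)))
  rw [dil_inv_apply, dil_apply]
  obtain ⟨h1, h2⟩ := lev_spec z
  have h10 : ‖z / 10‖ = ‖z‖ / 10 := by rw [norm_div]; norm_num
  by_cases h : lev z = 0
  · rw [h] at h2
    have h3 : ‖z / 10‖ ≤ 1 := by
      rw [h10]; norm_num at h2; linarith
    rw [spr_small hf h3]
    unfold spr
    rw [h]
    simp only [pow_zero, div_one, one_mul]
    rw [mul_div_cancel₀ _ (by norm_num)]
  · obtain ⟨i, hi⟩ := Nat.exists_eq_succ_of_ne_zero h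
    have h1' : (10 : ℝ) ^ lev z ≤ ‖z‖ := by
      rcases h1 with h1 | h1
      · exact absurd h1 h
      · exact h1
    rw [hi] at h1' h2
    have h5 : lev (z / 10) = i := by
      apply lev_eq
      · right
        rw [h10, le_div_iff₀ (by norm_num)]
        rw [Nat.succ_eq_add_one, pow_succ] at h1'
        exact h1'
      · rw [h10, div_lt_iff₀ (by norm_num)]
        rw [Nat.succ_eq_add_one, pow_succ] at h2
        exact h2
    have h6 : 10 * spr f (z / 10) = spr f z := by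
      unfold spr
      rw [h5, hi]
      have e : z / 10 / 10 ^ i = z / 10 ^ (i + 1) := by
        rw [div_div, ← pow_succ']
      rw [e, Nat.succ_eq_add_one, pow_succ]
      ring
    rw [h6]
    symm
    apply hf
    right
    have hp : (0 : ℝ) < 10 ^ lev z := by positivity
    have h7 : 1 ≤ ‖z / 10 ^ lev z‖ := by
      rw [norm_div_pow, le_div_iff₀ hp, hi]
      linarith
    have h8 := hf.bounds.1 h7
    unfold spr
    rw [norm_mul_pow, hi, Nat.succ_eq_add_one, pow_succ]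
    rw [hi, Nat.succ_eq_add_one] at h8
    have h9 : (1 : ℝ) ≤ 10 ^ i := one_le_pow₀ (by norm_num)
    nlinarith

/-! ### The step -/

/-- the subgroup generated by the three maps at scale one -/
def S1 : Subgroup (ℂ ≃ₜ ℂ) := Subgroup.closure {kap, tc 0, tc 4}

theorem E4_kap {z : ℂ} (hz : z ∈ E0) : kap z ∈ E4 := by
  have hz' : ‖z‖ ≤ 1 := hz
  have h : ‖z‖ ^ 2 ≤ 2 := by
    have := norm_nonneg z
    nlinarith
  rw [kap_half0 h]
  show ‖4 - z - 4‖ ≤ 1
  have e : (4 - z - 4 : ℂ) = -z := by ring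
  rw [e, norm_neg]
  exact hz'

theorem disj_04 (z : ℂ) (h : z ∈ E0) : z ∉ E4 := by
  intro h2
  have h' : ‖z‖ ≤ 1 := h
  have h2' : ‖z - 4‖ ≤ 1 := h2
  have := @four_le z
  linarith

theorem disj_0K (z : ℂ) (h : z ∈ E0) : z ∉ Kc := by
  intro h2
  have h' : ‖z‖ ≤ 1 := h
  have h2' : 12 < ‖z - 2‖ ^ 2 := h2
  have h3 : ‖z‖ ^ 2 ≤ 2 := by
    have := norm_nonneg z
    nlinarith
  have := sq_le_12 h3
  linarith

theorem disj_A0K (z : ℂ) (h : z ∈ A0) : z ∉ Kc := by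
  intro h2
  have h2' : 12 < ‖z - 2‖ ^ 2 := h2
  have := sq_le_12 h.2.le
  linarith

theorem disj_0A0 (z : ℂ) (h : z ∈ E0) : z ∉ A0 := by
  intro h2
  have h' : ‖z‖ ≤ 1 := h
  have := norm_nonneg z
  have h3 := h2.1
  nlinarith

theorem disj_4A4 (z : ℂ) (h : z ∈ E4) : z ∉ A4 := by
  intro h2
  have h' : ‖z - 4‖ ≤ 1 := h
  have := norm_nonneg (z - 4)
  have h3 := h2.1
  nlinarith

theorem disj_0A4 (z : ℂ) (h : z ∈ E0) : z ∉ A4 := by
  intro h2
  have h' : ‖z‖ ≤ 1 := h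
  have h3 := @four_le z
  have h4 := h2.2
  nlinarith

theorem disj_4A0 (z : ℂ) (h : z ∈ E4) : z ∉ A0 := by
  intro h2
  have h' : ‖z - 4‖ ≤ 1 := h
  have h3 := @four_le z
  have h4 := h2.2
  nlinarith

theorem disj_A0A4 (z : ℂ) (h : z ∈ A0) : z ∉ A4 := by
  intro h2
  have h3 := @four_le z
  have h4 := h2.2
  have h5 := h.2
  have h6 := sq_nonneg (‖z‖ - ‖z - 4‖)
  have h7 : (4 : ℝ) ^ 2 ≤ (‖z - 4‖ + ‖z‖) ^ 2 := pow_le_pow_left₀ (by norm_num) h3 2
  nlinarith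

/-- conjugation by `kap` as a homomorphism -/
def cj (k : ℂ ≃ₜ ℂ) : (ℂ ≃ₜ ℂ) →* (ℂ ≃ₜ ℂ) := (MulAut.conj k).toMonoidHom

theorem cj_apply (k x : ℂ ≃ₜ ℂ) : cj k x = k * x * k⁻¹ := rfl

theorem map_le_supp {Λ : Subgroup (ℂ ≃ₜ ℂ)} {k : ℂ ≃ₜ ℂ} {A B : Set ℂ} (h : Λ ≤ supp A)
    (hk : ∀ z, z ∈ A → k z ∈ B) : Λ.map (cj k) ≤ supp B := by
  rintro _ ⟨x, hx, rfl⟩
  exact conj_supp (h hx) hk

/-- The inductive step: a solvable group supported in the unit disc together with the maps at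
scale one generates a solvable group. -/
theorem step {Λ : Subgroup (ℂ ≃ₜ ℂ)} (hΛ : Λ ≤ supp E0) (hs : Group.IsSolvable Λ) :
    Group.IsSolvable ↥(Λ ⊔ S1) := by
  set Λ' := Λ.map (cj kap) with hΛ'
  have hΛ4 : Λ' ≤ supp E4 := map_le_supp hΛ (fun z hz => E4_kap hz)
  have s1 : Group.IsSolvable ↥(Λ ⊔ Λ') := solvable_sup_comm
    (fun a ha b hb => comm_of_disjoint disj_04 (hΛ ha) (hΛ4 hb)) hs (solvable_map _ hs)
  have hz0 : ∀ b ∈ Subgroup.zpowers (tc 0), b ∈ supp A0 := by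
    intro b hb
    have : Subgroup.zpowers (tc 0) ≤ supp A0 := (Subgroup.zpowers_le).2 tc0_mem
    exact this hb
  have hz4 : ∀ b ∈ Subgroup.zpowers (tc 4), b ∈ supp A4 := by
    intro b hb
    have : Subgroup.zpowers (tc 4) ≤ supp A4 := (Subgroup.zpowers_le).2 tc4_mem
    exact this hb
  have s2 : Group.IsSolvable ↥(Subgroup.zpowers (tc 0) ⊔ Subgroup.zpowers (tc 4)) :=
    solvable_sup_comm (fun a ha b hb => comm_of_disjoint disj_A0A4 (hz0 a ha) (hz4 b hb))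
      (solvable_zpowers _) (solvable_zpowers _)
  set T := Subgroup.zpowers (tc 0) ⊔ Subgroup.zpowers (tc 4) with hT
  have hTs : T ≤ supp (A0 ∪ A4) := sup_le
    (fun b hb => supp_mono Set.subset_union_left (hz0 b hb))
    (fun b hb => supp_mono Set.subset_union_right (hz4 b hb))
  have hΛs : Λ ⊔ Λ' ≤ supp (E0 ∪ E4) := sup_le
    (fun b hb => supp_mono Set.subset_union_left (hΛ hb))
    (fun b hb => supp_mono Set.subset_union_right (hΛ4 hb))
  have hdisj : ∀ z, z ∈ E0 ∪ E4 → z ∉ A0 ∪ A4 := by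
    rintro z (h | h) (h2 | h2)
    · exact disj_0A0 z h h2
    · exact disj_0A4 z h h2
    · exact disj_4A0 z h h2
    · exact disj_4A4 z h h2
  have s3 : Group.IsSolvable ↥((Λ ⊔ Λ') ⊔ T) := solvable_sup_comm
    (fun a ha b hb => comm_of_disjoint hdisj (hΛs ha) (hTs hb)) s1 s2
  set C := (Λ ⊔ Λ') ⊔ T with hC
  -- the square of the half-turn is invisible
  have hk2 : ∀ x ∈ Λ, kap * (kap * x * kap⁻¹) * kap⁻¹ = x := by
    intro x hx
    have h := comm_of_disjoint disj_0K (hΛ hx) kap2_mem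
    calc kap * (kap * x * kap⁻¹) * kap⁻¹ = (kap * kap * x) * (kap⁻¹ * kap⁻¹) := by group
      _ = (x * (kap * kap)) * (kap⁻¹ * kap⁻¹) := by rw [h]
      _ = x := by group
  have hk2' : kap * tc 4 * kap⁻¹ = tc 0 := by
    have h := comm_of_disjoint disj_A0K tc0_mem kap2_mem
    calc kap * tc 4 * kap⁻¹ = kap * (kap * tc 0 * kap⁻¹) * kap⁻¹ := by rw [kap_tc0]
      _ = (kap * kap * tc 0) * (kap⁻¹ * kap⁻¹) := by group
      _ = (tc 0 * (kap * kap)) * (kap⁻¹ * kap⁻¹) := by rw [h]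
      _ = tc 0 := by group
  have hmap : C.map (cj kap) = C := by
    rw [hC, Subgroup.map_sup, Subgroup.map_sup, hT, Subgroup.map_sup, MonoidHom.map_zpowers,
      MonoidHom.map_zpowers]
    have e1 : Λ'.map (cj kap) = Λ := by
      ext x
      constructor
      · rintro ⟨_, ⟨y, hy, rfl⟩, rfl⟩
        rw [cj_apply, cj_apply, hk2 y hy]
        exact hy
      · intro hx
        exact ⟨_, ⟨x, hx, rfl⟩, by rw [cj_apply, cj_apply, hk2 x hx]⟩
    have e2 : cj kap (tc 0) = tc 4 := kap_tc0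
    have e3 : cj kap (tc 4) = tc 0 := hk2'
    rw [e1, e2, e3, ← hΛ', sup_comm Λ' Λ, sup_comm (Subgroup.zpowers (tc 4))]
  have s4 : Group.IsSolvable ↥(C ⊔ Subgroup.zpowers kap) := by
    refine solvable_sup_zpowers ?_ ?_ s3
    · intro x hx
      have : cj kap x ∈ C.map (cj kap) := ⟨x, hx, rfl⟩
      rw [hmap] at this
      exact this
    · intro x hx
      rw [← hmap] at hx
      obtain ⟨y, hy, rfl⟩ := hx
      have : kap⁻¹ * cj kap y * kap = y := by rw [cj_apply]; group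
      rw [this]
      exact hy
  refine solvable_mono (sup_le ?_ ?_) s4
  · exact le_sup_left.trans (le_sup_left.trans le_sup_left)
  · unfold S1
    rw [Subgroup.closure_le]
    rintro x (rfl | rfl | rfl)
    · exact (le_sup_right : Subgroup.zpowers kap ≤ _) (Subgroup.mem_zpowers _)
    · refine (le_sup_left : C ≤ _) ((le_sup_right : T ≤ C) ?_)
      exact (le_sup_left : Subgroup.zpowers (tc 0) ≤ T) (Subgroup.mem_zpowers _)
    · refine (le_sup_left : C ≤ _) ((le_sup_right : T ≤ C) ?_)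
      exact (le_sup_right : Subgroup.zpowers (tc 4) ≤ T) (Subgroup.mem_zpowers _)

/-- the maps at the scales `10^j` for `-m ≤ j ≤ -1` -/
def Lam : ℕ → Subgroup (ℂ ≃ₜ ℂ)
  | 0 => ⊥
  | m + 1 => (Lam m ⊔ S1).map (cj dil⁻¹)

theorem S1_le : S1 ≤ supp {z | ‖z‖ ≤ 6} := by
  unfold S1
  rw [Subgroup.closure_le]
  rintro x (rfl | rfl | rfl)
  · exact kap_mem
  · refine supp_mono ?_ tc0_mem
    rintro z ⟨_, h⟩
    show ‖z‖ ≤ 6
    have := norm_nonneg z
    nlinarith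
  · refine supp_mono ?_ tc4_mem
    rintro z ⟨_, h⟩
    show ‖z‖ ≤ 6
    have h1 := @le_five z
    have := norm_nonneg (z - 4)
    by_contra h2
    push Not at h2
    nlinarith

theorem Lam_supp (m : ℕ) : Lam m ≤ supp E0 := by
  induction m with
  | zero => exact bot_le
  | succ m ih =>
    refine map_le_supp (A := {z | ‖z‖ ≤ 6}) (sup_le (ih.trans (supp_mono ?_)) S1_le) ?_
    · intro z hz
      have hz' : ‖z‖ ≤ 1 := hz
      show ‖z‖ ≤ 6
      linarith
    · intro z hz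
      have hz' : ‖z‖ ≤ 6 := hz
      show ‖dil⁻¹ z‖ ≤ 1
      rw [dil_inv_apply, norm_div]
      norm_num
      linarith

theorem Lam_solvable (m : ℕ) : Group.IsSolvable (Lam m) := by
  induction m with
  | zero =>
    have : Subsingleton (Lam 0) := by
      show Subsingleton (⊥ : Subgroup (ℂ ≃ₜ ℂ))
      infer_instance
    infer_instance
  | succ m ih => exact solvable_map _ (step (Lam_supp m) ih)

theorem Lam_mono : Monotone Lam := by
  refine monotone_nat_of_le_succ (fun m => ?_)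
  induction m with
  | zero => exact bot_le
  | succ m ih =>
    show (Lam m ⊔ S1).map (cj dil⁻¹) ≤ (Lam (m + 1) ⊔ S1).map (cj dil⁻¹)
    exact Subgroup.map_mono (sup_le_sup_right ih _)

/-- the part at the scales `10^j` for `j ≥ 0` -/
def BH : Subgroup (ℂ ≃ₜ ℂ) := Subgroup.zpowers bb ⊔ Subgroup.zpowers hh

theorem BH_solvable : Group.IsSolvable BH := by
  refine solvable_sup_comm ?_ (solvable_zpowers _) (solvable_zpowers _)
  rintro _ ⟨i, rfl⟩ _ ⟨j, rfl⟩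
  have h : Commute bb hh := bb_hh
  exact (h.zpow_zpow i j)

theorem BH_supp : BH ≤ supp {z | 1 < ‖z‖} :=
  sup_le ((Subgroup.zpowers_le).2 bb_mem) ((Subgroup.zpowers_le).2 hh_mem)

theorem LB_solvable (m : ℕ) : Group.IsSolvable ↥(Lam m ⊔ BH) := by
  refine solvable_sup_comm ?_ (Lam_solvable m) BH_solvable
  intro a ha b hb
  refine comm_of_disjoint ?_ (Lam_supp m ha) (BH_supp hb)
  intro z hz h2
  have h1 : ‖z‖ ≤ 1 := hz
  have h3 : 1 < ‖z‖ := h2
  linarith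

theorem LB_mono : Monotone (fun m => Lam m ⊔ BH) := fun _ _ h => sup_le_sup_right (Lam_mono h) _

/-- the union -/
def LL : Subgroup (ℂ ≃ₜ ℂ) := ⨆ m, (Lam m ⊔ BH)

theorem LL_fol : Fol LL := by
  refine fol_iSup LB_mono (fun m => ?_)
  haveI := LB_solvable m
  exact fol_of_solvable

theorem Lam_le (m : ℕ) : Lam m ≤ LL :=
  le_sup_left.trans (le_iSup (fun m => Lam m ⊔ BH) m)

theorem BH_le : BH ≤ LL :=
  (le_sup_right : BH ≤ Lam 0 ⊔ BH).trans (le_iSup (fun m => Lam m ⊔ BH) 0)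

theorem S1_map_le : S1.map (cj dil⁻¹) ≤ LL := by
  refine le_trans ?_ (Lam_le 1)
  exact Subgroup.map_mono le_sup_right

theorem spread_conj {f : ℂ ≃ₜ ℂ} (hf : Ann f) :
    cj dil⁻¹ (spread f hf) = cj dil⁻¹ f * spread f hf := by
  have h := dil_spread hf
  rw [cj_apply, cj_apply]
  conv_lhs => rw [h]
  group

theorem LL_conj : ∀ x ∈ LL, dil⁻¹ * x * dil ∈ LL := by
  have key : LL ≤ LL.comap (cj dil⁻¹) := by
    unfold LL
    refine iSup_le (fun m => sup_le ?_ (sup_le ?_ ?_))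
    · intro x hx
      show cj dil⁻¹ x ∈ LL
      refine Lam_le (m + 1) ?_
      exact ⟨x, (le_sup_left : Lam m ≤ Lam m ⊔ S1) hx, rfl⟩
    · rw [Subgroup.zpowers_le]
      show cj dil⁻¹ bb ∈ LL
      have h : cj dil⁻¹ bb = cj dil⁻¹ (tc 0) * bb := spread_conj ann_tc0
      rw [h]
      refine Subgroup.mul_mem _ (S1_map_le ⟨_, Subgroup.subset_closure (by simp), rfl⟩) ?_
      exact BH_le ((le_sup_left : Subgroup.zpowers bb ≤ BH) (Subgroup.mem_zpowers _))
    · rw [Subgroup.zpowers_le]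
      show cj dil⁻¹ hh ∈ LL
      have h : cj dil⁻¹ hh = cj dil⁻¹ (tc 4) * hh := spread_conj ann_tc4
      rw [h]
      refine Subgroup.mul_mem _ (S1_map_le ⟨_, Subgroup.subset_closure (by simp), rfl⟩) ?_
      exact BH_le ((le_sup_right : Subgroup.zpowers hh ≤ BH) (Subgroup.mem_zpowers _))
  intro x hx
  have := key hx
  have h2 : cj dil⁻¹ x ∈ LL := this
  rw [cj_apply, inv_inv] at h2
  exact h2

/-- The group of the counterexample. -/
def GG : Subgroup (ℂ ≃ₜ ℂ) := Subgroup.closure {dil, bb, hh, kap}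

theorem GG_le : GG ≤ LL ⊔ Subgroup.zpowers dil := by
  unfold GG
  rw [Subgroup.closure_le]
  have hd : dil ∈ LL ⊔ Subgroup.zpowers dil :=
    (le_sup_right : Subgroup.zpowers dil ≤ _) (Subgroup.mem_zpowers _)
  rintro x (rfl | rfl | rfl | rfl)
  · exact hd
  · exact (le_sup_left : LL ≤ _) (BH_le ((le_sup_left : Subgroup.zpowers bb ≤ BH)
      (Subgroup.mem_zpowers _)))
  · exact (le_sup_left : LL ≤ _) (BH_le ((le_sup_right : Subgroup.zpowers hh ≤ BH)
      (Subgroup.mem_zpowers _)))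
  · have h1 : cj dil⁻¹ kap ∈ LL ⊔ Subgroup.zpowers dil :=
      (le_sup_left : LL ≤ _) (S1_map_le ⟨kap, Subgroup.subset_closure (by simp), rfl⟩)
    have h2 := Subgroup.mul_mem _ (Subgroup.mul_mem _ hd h1) (Subgroup.inv_mem _ hd)
    have h3 : dil * cj dil⁻¹ kap * dil⁻¹ = kap := by rw [cj_apply]; group
    rwa [h3] at h2

theorem GG_fol : Fol GG := fol_mono GG_le (fol_ascending LL_conj LL_fol)

end

end Pool.Agent.Helper375.EA
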