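import Mathlib
import Pool.Agent.Helper375.EA.Rel
import Pool.Agent.Helper11.PlaneEuler.Lift

set_option autoImplicit false

open Filter Topology
open scoped commutatorElement

namespace Pool.Agent.Helper375.EA

open Pool.Agent.Helper11.PlaneEuler

noncomputable section

/-! ### Tracking the angle of a lift -/

/-- the angle of a lift can be followed continuously along a family of pairs -/
theorem track (F : PlaneLift) {X : Type} [TopologicalSpace X] [PreconnectedSpace X]
    (γ : X → Conf) (hγ : Continuous γ) (α : X → ℝ) (hα : Continuous α)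
    (h : ∀ t, (F.homeo (γ t).1.2 - F.homeo (γ t).1.1) / ((γ t).1.2 - (γ t).1.1) =
      (‖(F.homeo (γ t).1.2 - F.homeo (γ t).1.1) / ((γ t).1.2 - (γ t).1.1)‖ : ℂ) *
        Complex.exp (α t * Complex.I)) (a b : X) :
    F.angle (γ a) - α a = F.angle (γ b) - α b := by
  have h1 : ∀ t, Complex.exp (F.angle (γ t) * Complex.I) = Complex.exp (α t * Complex.I) := by
    intro t
    have e1 := F.spec (γ t)
    have e2 := h t
    have e3 : ((‖(F.homeo (γ t).1.2 - F.homeo (γ t).1.1) / ((γ t).1.2 - (γ t).1.1)‖ : ℝ) : ℂ) ≠ 0 := by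
      have : ‖(F.homeo (γ t).1.2 - F.homeo (γ t).1.1) / ((γ t).1.2 - (γ t).1.1)‖ ≠ 0 :=
        norm_ne_zero_iff.mpr (div_ne_zero (sub_ne' _ _) (sub_ne _))
      exact_mod_cast this
    have e4 := e1.symm.trans e2
    exact mul_left_cancel₀ e3 e4
  have h2 : ∀ t, Circle.exp (F.angle (γ t) - α t) = 1 := by
    intro t
    rw [Circle.exp_sub, (circle_exp_eq_iff _ _).mpr (h1 t), div_self']
  exact Circle.isCoveringMap_exp.const_of_comp (g := fun t => F.angle (γ t) - α t)
      ((F.angle.continuous.comp hγ).sub hα) (fun a b => by rw [h2, h2]) a b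

/-- the angle is constant along pairs of fixed points -/
theorem track_fix (F : PlaneLift) {X : Type} [TopologicalSpace X] [PreconnectedSpace X]
    (γ : X → Conf) (hγ : Continuous γ) (h1 : ∀ t, F.homeo (γ t).1.1 = (γ t).1.1)
    (h2 : ∀ t, F.homeo (γ t).1.2 = (γ t).1.2) (a b : X) : F.angle (γ a) = F.angle (γ b) := by
  have := track F γ hγ (fun _ => 0) continuous_const (fun t => by
    rw [h1, h2, div_self (sub_ne (γ t))]; simp) a b
  simpa using this

/-- the angle along pairs whose directions are never reversed -/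
theorem track_re (F : PlaneLift) {X : Type} [TopologicalSpace X] [PreconnectedSpace X]
    (γ : X → Conf) (hγ : Continuous γ)
    (h : ∀ t, 0 < ((F.homeo (γ t).1.2 - F.homeo (γ t).1.1) / ((γ t).1.2 - (γ t).1.1)).re)
    (a b : X) (ha1 : F.homeo (γ a).1.1 = (γ a).1.1) (ha2 : F.homeo (γ a).1.2 = (γ a).1.2)
    (hb1 : F.homeo (γ b).1.1 = (γ b).1.1) (hb2 : F.homeo (γ b).1.2 = (γ b).1.2) :
    F.angle (γ a) = F.angle (γ b) := by
  have hq : Continuous (fun t => (F.homeo (γ t).1.2 - F.homeo (γ t).1.1) /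
      ((γ t).1.2 - (γ t).1.1)) := by
    have hF := F.homeo.continuous
    have h1 : Continuous (fun t => (γ t).1.1) := continuous_fst.comp (continuous_subtype_val.comp hγ)
    have h2 : Continuous (fun t => (γ t).1.2) := continuous_snd.comp (continuous_subtype_val.comp hγ)
    exact ((hF.comp h2).sub (hF.comp h1)).div (h2.sub h1) (fun t => sub_ne (γ t))
  have harg : Continuous (fun t => Complex.arg ((F.homeo (γ t).1.2 - F.homeo (γ t).1.1) /
      ((γ t).1.2 - (γ t).1.1))) := by
    rw [continuous_iff_continuousAt]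
    intro t
    exact ContinuousAt.comp (g := Complex.arg) (Complex.continuousAt_arg (Or.inl (h t)))
      hq.continuousAt
  have := track F γ hγ _ harg (fun t => (Complex.norm_mul_exp_arg_mul_I _).symm) a b
  simp only [ha1, ha2, hb1, hb2, div_self (sub_ne (γ a)), div_self (sub_ne (γ b)),
    Complex.arg_one, sub_zero] at this
  exact this

/-- pairs of real points -/
def rp (x y : ℝ) (h : x ≠ y) : Conf := ⟨((x : ℂ), (y : ℂ)), fun h' => h (by
  have h2 : (x : ℂ) = (y : ℂ) := h'
  exact_mod_cast h2)⟩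

/-! ### Lifts of the generators -/

theorem exists_lift_of_id (f : ℂ ≃ₜ ℂ) (c : ℂ) (h : ∀ᶠ z in 𝓝 c, f z = z) :
    ∃ F : PlaneLift, F.homeo = f := by
  have h1 : HasStrictFDerivAt (f : ℂ → ℂ) (ContinuousLinearMap.id ℝ ℂ) c := by
    refine (hasStrictFDerivAt_id c).congr_of_eventuallyEq ?_
    filter_upwards [h] with z hz
    exact hz.symm
  obtain ⟨F, hF, _⟩ := exists_lift f c h1
  exact ⟨F, hF⟩

theorem id_near_of_supp {f : ℂ ≃ₜ ℂ} (hf : f ∈ supp {z | 1 < ‖z‖}) : ∀ᶠ z in 𝓝 (0 : ℂ), f z = z := by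
  have h : ∀ᶠ z : ℂ in 𝓝 0, ‖z‖ < 1 := by
    have := (continuous_norm (E := ℂ)).continuousAt (x := (0 : ℂ))
    exact this.eventually_lt_const (by simp)
  filter_upwards [h] with z hz
  apply hf
  intro h2
  have h3 : 1 < ‖z‖ := h2
  linarith

theorem kap_near : ∀ᶠ z in 𝓝 (100 : ℂ), kap z = z := by
  have h : ∀ᶠ z : ℂ in 𝓝 100, 6 < ‖z‖ := by
    have := (continuous_norm (E := ℂ)).continuousAt (x := (100 : ℂ))
    exact this.eventually_const_lt (by norm_num)
  filter_upwards [h] with z hz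
  apply kap_mem
  intro h2
  have h3 : ‖z‖ ≤ 6 := h2
  linarith

/-- the lift of the dilation -/
def dilL : PlaneLift where
  homeo := dil
  angle := ContinuousMap.const _ 0
  spec := by
    intro x
    have h : (dil x.1.2 - dil x.1.1) / (x.1.2 - x.1.1) = 10 := by
      rw [dil_apply, dil_apply, ← mul_sub, mul_div_assoc, div_self (sub_ne x), mul_one]
    rw [h]
    simp

theorem dilL_homeo : dilL.homeo = dil := rfl
theorem dilL_angle (x : Conf) : dilL.angle x = 0 := rfl
theorem dilL_inv_angle (x : Conf) : (dilL⁻¹).angle x = 0 := by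
  rw [inv_angle, dilL_angle, neg_zero]

/-- angle of a commutator with the dilation -/
theorem comm_angle (F : PlaneLift) (x y : Conf) (hy : onConf dil y = x)
    (hf : onConf F.homeo y = y) : ⁅F, dilL⁆.angle x = F.angle x - F.angle y := by
  have h1 : onConf (dil⁻¹ : ℂ ≃ₜ ℂ) x = y := by
    rw [← hy]
    apply Subtype.ext
    apply Prod.ext
    · exact dil.symm_apply_apply _
    · exact dil.symm_apply_apply _
  have h2 : onConf (F.homeo⁻¹ : ℂ ≃ₜ ℂ) y = y := by
    conv_lhs => rw [← hf]
    apply Subtype.ext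
    apply Prod.ext
    · exact F.homeo.symm_apply_apply _
    · exact F.homeo.symm_apply_apply _
  rw [commutatorElement_def, mul_angle, dilL_inv_angle, inv_homeo, dilL_homeo, h1, mul_angle,
    inv_angle, inv_homeo, h2, mul_angle, dilL_angle, dilL_homeo, hy]
  ring

theorem comm_homeo (F : PlaneLift) : ⁅F, dilL⁆.homeo = ⁅F.homeo, dil⁆ := rfl

theorem comm_bb : ⁅bb, dil⁆ = tc 0 := by
  have h := dil_spread ann_tc0
  have h' : bb = tc 0 * (dil * bb * dil⁻¹) := h
  rw [commutatorElement_def]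
  conv_lhs => lhs; lhs; lhs; rw [h']
  group

theorem comm_hh : ⁅hh, dil⁆ = tc 4 := by
  have h := dil_spread ann_tc4
  have h' : hh = tc 4 * (dil * hh * dil⁻¹) := h
  rw [commutatorElement_def]
  conv_lhs => lhs; lhs; lhs; rw [h']
  group

/-! ### The angle computation -/

theorem bb_fix {z : ℂ} (h : ‖z‖ ≤ 1) : bb z = z := spr_small ann_tc0 h
theorem hh_fix {z : ℂ} (h : ‖z‖ ≤ 1) : hh z = z := spr_small ann_tc4 h

theorem hh_zero_scale {z : ℂ} (h : ‖z‖ < 10) : hh z = tc 4 z := by
  show spr (tc 4) z = tc 4 z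
  rw [spr_local ann_tc4 (j := 0) (Or.inl rfl) (by simpa using h)]
  simp

theorem pair_01 : (0 : ℝ) ≠ 1 := by norm_num

theorem angle_bb (B : PlaneLift) (hB : B.homeo = bb) :
    ⁅B, dilL⁆.angle (rp 0 1 (by norm_num)) = 0 := by
  rw [comm_angle B (rp 0 1 (by norm_num)) (rp 0 (1 / 10) (by norm_num))]
  · let γ : Set.Icc (1 / 10 : ℝ) 1 → Conf := fun y => rp 0 y (by
      have := y.2.1; intro h; rw [← h] at this; norm_num at this)
    have hγ : Continuous γ := by
      apply Continuous.subtype_mk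
      fun_prop
    have : PreconnectedSpace (Set.Icc (1 / 10 : ℝ) 1) :=
      Subtype.preconnectedSpace isPreconnected_Icc
    have h := track_fix B γ hγ (by
        intro t
        rw [hB]
        apply bb_fix
        show ‖((0 : ℝ) : ℂ)‖ ≤ 1
        simp) (by
        intro t
        rw [hB]
        apply bb_fix
        show ‖((t : ℝ) : ℂ)‖ ≤ 1
        rw [Complex.norm_real, Real.norm_eq_abs, abs_le]
        have := t.2
        constructor <;> linarith [this.1, this.2]) ⟨1, by norm_num⟩ ⟨1 / 10, by norm_num⟩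
    have h' : B.angle (rp 0 1 (by norm_num)) = B.angle (rp 0 (1 / 10) (by norm_num)) := h
    rw [h', sub_self]
  · apply Subtype.ext
    apply Prod.ext
    · show dil ((0 : ℝ) : ℂ) = ((0 : ℝ) : ℂ)
      rw [dil_apply]; simp
    · show dil ((1 / 10 : ℝ) : ℂ) = ((1 : ℝ) : ℂ)
      rw [dil_apply]; push_cast; norm_num
  · apply Subtype.ext
    apply Prod.ext
    · show B.homeo ((0 : ℝ) : ℂ) = _
      rw [hB]
      apply bb_fix
      simp
    · show B.homeo ((1 / 10 : ℝ) : ℂ) = _
      rw [hB]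
      apply bb_fix
      rw [Complex.norm_real]; norm_num

/-- `hh` on the segment `[2/5, 4]` and to the left -/
theorem hh_real {y : ℝ} (h1 : -1 ≤ y) (h2 : y ≤ 2) : hh (y : ℂ) = y := by
  have hn : ‖(y : ℂ)‖ < 10 := by
    rw [Complex.norm_real, Real.norm_eq_abs, abs_lt]
    constructor <;> linarith
  rw [hh_zero_scale hn]
  apply tc_fix_large
  have e : ((y : ℂ) - 4) = ((y - 4 : ℝ) : ℂ) := by push_cast; ring
  rw [e, Complex.norm_real, Real.norm_eq_abs, sq_abs]
  nlinarith

theorem hh_four : hh 4 = 4 := by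
  rw [hh_zero_scale (by norm_num)]
  apply tc_fix_small
  norm_num

theorem angle_hh (F : PlaneLift) (hF : F.homeo = hh) :
    ⁅F, dilL⁆.angle (rp 4 3 (by norm_num)) = 2 * Real.pi := by
  have key : ⁅F, dilL⁆.angle (rp 4 3 (by norm_num)) =
      F.angle (rp 4 3 (by norm_num)) - F.angle (rp (2 / 5) (3 / 10) (by norm_num)) := by
    apply comm_angle
    · apply Subtype.ext
      apply Prod.ext
      · show dil ((2 / 5 : ℝ) : ℂ) = ((4 : ℝ) : ℂ)
        rw [dil_apply]; push_cast; norm_num
      · show dil ((3 / 10 : ℝ) : ℂ) = ((3 : ℝ) : ℂ)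
        rw [dil_apply]; push_cast; norm_num
    · apply Subtype.ext
      apply Prod.ext
      · show F.homeo ((2 / 5 : ℝ) : ℂ) = _
        rw [hF]
        exact hh_real (by norm_num) (by norm_num)
      · show F.homeo ((3 / 10 : ℝ) : ℂ) = _
        rw [hF]
        exact hh_real (by norm_num) (by norm_num)
  -- first path: `(4, 4 - r)`, `1 ≤ r ≤ 2`
  have s1 : F.angle (rp 4 3 (by norm_num)) - beta 1 = F.angle (rp 4 2 (by norm_num)) - beta (2 ^ 2) := by
    let γ : Set.Icc (1 : ℝ) 2 → Conf := fun r => rp 4 (4 - r) (by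
      have := r.2.1; intro h; linarith)
    have hγ : Continuous γ := by
      apply Continuous.subtype_mk
      fun_prop
    have : PreconnectedSpace (Set.Icc (1 : ℝ) 2) :=
      Subtype.preconnectedSpace isPreconnected_Icc
    have hα : Continuous (fun r : Set.Icc (1 : ℝ) 2 => beta ((r : ℝ) ^ 2)) := by
      have := contDiff_beta.continuous
      fun_prop
    have h := track F γ hγ (fun r => beta ((r : ℝ) ^ 2)) hα (by
        intro r
        have hr := r.2
        have e1 : (γ r).1.1 = (4 : ℂ) := by show ((4 : ℝ) : ℂ) = 4; norm_num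
        have e2 : (γ r).1.2 = 4 - ((r : ℝ) : ℂ) := by
          show ((4 - (r : ℝ) : ℝ) : ℂ) = _
          push_cast; ring
        have hr0 : ((r : ℝ) : ℂ) ≠ 0 := by
          have : (0 : ℝ) < r := by linarith [hr.1]
          exact_mod_cast this.ne'
        have e3 : hh (4 - ((r : ℝ) : ℂ)) = 4 + (-((r : ℝ) : ℂ)) *
            Complex.exp (beta ((r : ℝ) ^ 2) * Complex.I) := by
          rw [hh_zero_scale (by
            have e : (4 : ℂ) - ((r : ℝ) : ℂ) = ((4 - r : ℝ) : ℂ) := by push_cast; ring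
            rw [e, Complex.norm_real, Real.norm_eq_abs, abs_lt]
            constructor <;> linarith [hr.1, hr.2])]
          show twf 4 beta (4 - ((r : ℝ) : ℂ)) = _
          unfold twf
          have e : (4 - ((r : ℝ) : ℂ) - 4) = -((r : ℝ) : ℂ) := by ring
          rw [e, norm_neg, Complex.norm_real, Real.norm_eq_abs, sq_abs]
        have e4 : (F.homeo (γ r).1.2 - F.homeo (γ r).1.1) / ((γ r).1.2 - (γ r).1.1) =
            Complex.exp (beta ((r : ℝ) ^ 2) * Complex.I) := by
          rw [hF, e1, e2, hh_four, e3]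
          have n1 : (4 + (-((r : ℝ) : ℂ)) * Complex.exp (beta ((r : ℝ) ^ 2) * Complex.I) - 4) =
              (-((r : ℝ) : ℂ)) * Complex.exp (beta ((r : ℝ) ^ 2) * Complex.I) := by ring
          have n2 : (4 - ((r : ℝ) : ℂ) - 4) = -((r : ℝ) : ℂ) := by ring
          rw [n1, n2, mul_div_cancel_left₀ _ (neg_ne_zero.2 hr0)]
        rw [e4, Complex.norm_exp_ofReal_mul_I]
        simp) ⟨1, by norm_num⟩ ⟨2, by norm_num⟩
    have g1 : γ ⟨1, by norm_num⟩ = rp 4 3 (by norm_num) := by
      apply Subtype.ext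
      apply Prod.ext
      · rfl
      · show ((4 - 1 : ℝ) : ℂ) = ((3 : ℝ) : ℂ)
        norm_num
    have g2 : γ ⟨2, by norm_num⟩ = rp 4 2 (by norm_num) := by
      apply Subtype.ext
      apply Prod.ext
      · rfl
      · show ((4 - 2 : ℝ) : ℂ) = ((2 : ℝ) : ℂ)
        norm_num
    rw [g1, g2] at h
    simpa using h
  -- second path: `(4, y)`, `-1 ≤ y ≤ 2`
  have s2 : F.angle (rp 4 2 (by norm_num)) = F.angle (rp 4 (-1) (by norm_num)) := by
    let γ : Set.Icc (-1 : ℝ) 2 → Conf := fun y => rp 4 y (by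
      have := y.2.2; intro h; linarith)
    have hγ : Continuous γ := by
      apply Continuous.subtype_mk
      fun_prop
    have : PreconnectedSpace (Set.Icc (-1 : ℝ) 2) :=
      Subtype.preconnectedSpace isPreconnected_Icc
    have h := track_fix F γ hγ (by
        intro t
        rw [hF]
        show hh ((4 : ℝ) : ℂ) = ((4 : ℝ) : ℂ)
        have := hh_four
        push_cast
        exact this) (by
        intro t
        rw [hF]
        exact hh_real t.2.1 t.2.2) ⟨2, by norm_num⟩ ⟨-1, by norm_num⟩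
    exact h
  -- third path: `(x, -1)`, `2/5 ≤ x ≤ 4`
  have s3 : F.angle (rp 4 (-1) (by norm_num)) = F.angle (rp (2 / 5) (-1) (by norm_num)) := by
    let γ : Set.Icc (2 / 5 : ℝ) 4 → Conf := fun x => rp x (-1) (by
      have := x.2.1; intro h; linarith)
    have hγ : Continuous γ := by
      apply Continuous.subtype_mk
      fun_prop
    have : PreconnectedSpace (Set.Icc (2 / 5 : ℝ) 4) :=
      Subtype.preconnectedSpace isPreconnected_Icc
    have hm1 : hh ((-1 : ℝ) : ℂ) = ((-1 : ℝ) : ℂ) := hh_real (by norm_num) (by norm_num)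
    have h := track_re F γ hγ (by
        intro x
        have hx := x.2
        have e1 : (γ x).1.1 = ((x : ℝ) : ℂ) := rfl
        have e2 : (γ x).1.2 = ((-1 : ℝ) : ℂ) := rfl
        rw [hF, e1, e2, hm1]
        have hn : ‖((x : ℝ) : ℂ)‖ < 10 := by
          rw [Complex.norm_real, Real.norm_eq_abs, abs_lt]
          constructor <;> linarith [hx.1, hx.2]
        rw [hh_zero_scale hn]
        have h1 : ‖tc 4 ((x : ℝ) : ℂ) - 4‖ = ‖((x : ℝ) : ℂ) - 4‖ := norm_twf_sub 4 beta _
        have h2 : ‖((x : ℝ) : ℂ) - 4‖ = 4 - x := by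
          have e : ((x : ℝ) : ℂ) - 4 = ((x - 4 : ℝ) : ℂ) := by push_cast; ring
          rw [e, Complex.norm_real, Real.norm_eq_abs, abs_of_nonpos (by linarith [hx.2])]
          ring
        have h3 : |(tc 4 ((x : ℝ) : ℂ) - 4).re| ≤ 4 - x := by
          rw [← h2, ← h1]; exact Complex.abs_re_le_norm _
        have h4 : 0 < (tc 4 ((x : ℝ) : ℂ)).re := by
          have := (abs_le.1 h3).1
          rw [Complex.sub_re] at this
          have e : (4 : ℂ).re = 4 := by norm_num
          rw [e] at this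
          linarith [hx.1]
        have e3 : (((-1 : ℝ) : ℂ) - tc 4 ((x : ℝ) : ℂ)) / (((-1 : ℝ) : ℂ) - ((x : ℝ) : ℂ)) =
            (1 + tc 4 ((x : ℝ) : ℂ)) / ((1 + x : ℝ) : ℂ) := by
          have hx0 : (0 : ℝ) < 1 + x := by linarith [hx.1]
          have h5 : ((1 + x : ℝ) : ℂ) ≠ 0 := by exact_mod_cast hx0.ne'
          have h6 : (((-1 : ℝ) : ℂ) - ((x : ℝ) : ℂ)) ≠ 0 := by
            have : (((-1 : ℝ) : ℂ) - ((x : ℝ) : ℂ)) = -((1 + x : ℝ) : ℂ) := by push_cast; ring
            rw [this]; exact neg_ne_zero.2 h5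
          rw [div_eq_div_iff h6 h5]
          push_cast
          ring
        rw [e3, Complex.div_ofReal_re]
        apply div_pos
        · rw [Complex.add_re, Complex.one_re]; linarith
        · linarith [hx.1]) ⟨4, by norm_num⟩ ⟨2 / 5, by norm_num⟩ (by
        rw [hF]
        show hh ((4 : ℝ) : ℂ) = ((4 : ℝ) : ℂ)
        have := hh_four
        push_cast
        exact this) (by rw [hF]; exact hm1) (by
        rw [hF]
        exact hh_real (by norm_num) (by norm_num)) (by rw [hF]; exact hm1)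
    exact h
  -- fourth path: `(2/5, y)`, `-1 ≤ y ≤ 3/10`
  have s4 : F.angle (rp (2 / 5) (-1) (by norm_num)) = F.angle (rp (2 / 5) (3 / 10) (by norm_num)) := by
    let γ : Set.Icc (-1 : ℝ) (3 / 10) → Conf := fun y => rp (2 / 5) y (by
      have := y.2.2; intro h; linarith)
    have hγ : Continuous γ := by
      apply Continuous.subtype_mk
      fun_prop
    have : PreconnectedSpace (Set.Icc (-1 : ℝ) (3 / 10)) :=
      Subtype.preconnectedSpace isPreconnected_Icc
    have h := track_fix F γ hγ (by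
        intro t
        rw [hF]
        exact hh_real (by norm_num) (by norm_num)) (by
        intro t
        rw [hF]
        exact hh_real t.2.1 (by linarith [t.2.2])) ⟨-1, by norm_num⟩ ⟨3 / 10, by norm_num⟩
    exact h
  rw [key]
  have b1 : beta 1 = 2 * Real.pi := beta_small le_rfl
  have b2 : beta (2 ^ 2) = 0 := beta_large (by norm_num)
  rw [b1, b2] at s1
  linarith

/-- The relation with Euler number one. -/
theorem relation (B F K : PlaneLift) (hB : B.homeo = bb) (hF : F.homeo = hh) (hK : K.homeo = kap) :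
    ⁅K⁻¹ * F * K, K⁻¹ * dilL * K⁆ * ⁅dilL, B⁆ = central 1 := by
  have e0 : ⁅K⁻¹ * F * K, K⁻¹ * dilL * K⁆ = K⁻¹ * ⁅F, dilL⁆ * K := by
    simp only [commutatorElement_def]
    group
  have e1 : ⁅dilL, B⁆ = ⁅B, dilL⁆⁻¹ := (commutatorElement_inv B dilL).symm
  have hh1 : (K⁻¹ * ⁅F, dilL⁆ * K).homeo = ⁅B, dilL⁆.homeo := by
    rw [mul_homeo, mul_homeo, inv_homeo, comm_homeo, comm_homeo, hK, hF, hB, comm_bb, comm_hh,
      ← kap_tc0]
    group
  obtain ⟨k, hk⟩ := lift_unique _ _ hh1
  have hx : onConf kap (rp 0 1 (by norm_num)) = rp 4 3 (by norm_num) := by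
    apply Subtype.ext
    apply Prod.ext
    · show kap ((0 : ℝ) : ℂ) = ((4 : ℝ) : ℂ)
      rw [kap_half0 (by simp)]; push_cast; ring
    · show kap ((1 : ℝ) : ℂ) = ((3 : ℝ) : ℂ)
      rw [kap_half0 (by simp)]; push_cast; norm_num
  have hx2 : onConf (⁅F, dilL⁆.homeo) (rp 4 3 (by norm_num)) = rp 4 3 (by norm_num) := by
    rw [comm_homeo, hF, comm_hh]
    apply Subtype.ext
    apply Prod.ext
    · show tc 4 ((4 : ℝ) : ℂ) = ((4 : ℝ) : ℂ)
      apply tc_fix_small
      push_cast
      simp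
    · show tc 4 ((3 : ℝ) : ℂ) = ((3 : ℝ) : ℂ)
      apply tc_fix_small
      push_cast
      norm_num
  have hx3 : onConf (K.homeo⁻¹ : ℂ ≃ₜ ℂ) (rp 4 3 (by norm_num)) = rp 0 1 (by norm_num) := by
    rw [hK, ← hx]
    apply Subtype.ext
    apply Prod.ext
    · exact kap.symm_apply_apply _
    · exact kap.symm_apply_apply _
  have a1 : (K⁻¹ * ⁅F, dilL⁆ * K).angle (rp 0 1 (by norm_num)) = 2 * Real.pi := by
    rw [mul_angle, hK, hx, mul_angle, hx2, inv_angle, hx3, angle_hh F hF]
    ring
  have a2 : (central k * ⁅B, dilL⁆).angle (rp 0 1 (by norm_num)) = 2 * Real.pi * k := by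
    rw [mul_angle, angle_bb B hB]
    show 2 * Real.pi * (k : ℝ) + 0 = _
    ring
  rw [hk, a2] at a1
  have hk1 : k = 1 := by
    have h3 : (k : ℝ) = 1 := by
      have h4 : 2 * Real.pi * (k : ℝ) = 2 * Real.pi * 1 := by rw [a1]; ring
      exact mul_left_cancel₀ (by positivity) h4
    exact_mod_cast h3
  rw [e0, e1, hk, hk1]
  group

end

end Pool.Agent.Helper375.EA
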